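import Pool.Agent.H29.BH.Targets2

/-!
# The hybrid bound of Burgess: module N_SD, shift and separation
-/

set_option autoImplicit false
set_option linter.unusedSectionVars false

open NumberField NumberField.InfinitePlace NumberField.Units
  NumberField.Units.dirichletUnitTheorem MeasureTheory Set Filter Complex
open scoped nonZeroDivisors ENNReal

namespace Pool.Agent.H95.BH

open Pool.Agent.H25.HK Pool.Agent.H23.LB Pool.Agent.H23.LC Pool.Agent.H29.DW
open Pool.Agent.H29.BH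
open Pool.Agent.H28.RC (Rep ft idl)

namespace NSD

/-! ### The local measures -/

theorem mz_Rl (r : Bool) : ∀ᵐ w ∂mz r, Rl r w := by
  cases r
  · exact Filter.Eventually.of_forall fun w h => by cases h
  · show ∀ᵐ w ∂(Measure.map (fun x : ℝ => (x : ℂ)) volume), Rl true w
    rw [ae_map_iff (by fun_prop)]
    · exact Filter.Eventually.of_forall fun x _ => Complex.ofReal_im x
    · have : {w : ℂ | Rl true w} = {w : ℂ | w.im = 0} := by
        ext w
        simp [Rl]
      rw [this]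
      exact measurableSet_eq_fun Complex.measurable_im measurable_const

theorem mz_shift (r : Bool) (t : ℂ) (ht : Rl r t) :
    MeasurePreserving (fun w : ℂ => w + t) (mz r) (mz r) := by
  cases r
  · show MeasurePreserving (fun w : ℂ => w + t) volume volume
    exact measurePreserving_add_right volume t
  · show MeasurePreserving (fun w : ℂ => w + t) (Measure.map (fun x : ℝ => (x : ℂ)) volume)
      (Measure.map (fun x : ℝ => (x : ℂ)) volume)
    refine ⟨by fun_prop, ?_⟩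
    rw [Measure.map_map (by fun_prop) (by fun_prop)]
    have h1 : ((fun w : ℂ => w + t) ∘ fun x : ℝ => (x : ℂ)) =
        (fun x : ℝ => (x : ℂ)) ∘ fun x : ℝ => x + t.re := by
      funext x
      simp only [Function.comp_apply, Complex.ofReal_add]
      congr 1
      apply Complex.ext
      · simp
      · simpa using ht rfl
    rw [h1, ← Measure.map_map (by fun_prop) (by fun_prop)]
    rw [(measurePreserving_add_right (volume : Measure ℝ) t.re).map_eq]

theorem mz_ball (r : Bool) (R : ℝ) : mz r (Metric.closedBall 0 R) < ⊤ := by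
  cases r
  · show volume (Metric.closedBall (0 : ℂ) R) < ⊤
    exact measure_closedBall_lt_top
  · show Measure.map (fun x : ℝ => (x : ℂ)) volume (Metric.closedBall 0 R) < ⊤
    rw [Measure.map_apply (by fun_prop) Metric.isClosed_closedBall.measurableSet]
    refine lt_of_le_of_lt (measure_mono ?_) (measure_closedBall_lt_top (x := (0 : ℝ)) (r := R))
    intro x hx
    simpa using hx

section NF

variable {K : Type} [Field K] [NumberField K]

instance instSF : SigmaFinite (mK K) := by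
  unfold mK
  infer_instance

theorem cntK : Countable K := by
  have b := Module.finBasis ℚ K
  exact b.equivFun.toEquiv.injective.countable

theorem mK_Rl : ∀ᵐ p ∂mK K, ∀ v, Rl (rv v) (p v) := by
  rw [ae_all_iff]
  intro v
  exact (Measure.quasiMeasurePreserving_eval (fun v : InfinitePlace K => mz (rv v)) v).ae
    (mz_Rl (rv v))

theorem mK_shift (t : InfinitePlace K → ℂ) (ht : ∀ v, Rl (rv v) (t v)) :
    MeasurePreserving (fun (p : InfinitePlace K → ℂ) v => p v + t v) (mK K) (mK K) :=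
  measurePreserving_pi (fun v : InfinitePlace K => mz (rv v))
    (fun v : InfinitePlace K => mz (rv v)) fun v => mz_shift (rv v) (t v) (ht v)

theorem sy_add (y : InfinitePlace K → ℝ) (a b : K) (v : InfinitePlace K) :
    sy y (a + b) v = sy y a v + sy y b v := by
  unfold sy
  rw [map_add]
  ring

theorem sy_Rl (y : InfinitePlace K → ℝ) (x : K) (v : InfinitePlace K) : Rl (rv v) (sy y x v) := by
  intro hv
  have h1 : v.IsReal := by
    unfold rv at hv
    simpa using hv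
  have h2 : (v.embedding x).im = 0 := by
    have h3 := InfinitePlace.isReal_iff.1 h1
    have h4 : (starRingEnd ℂ) (v.embedding x) = v.embedding x := by
      have := ComplexEmbedding.isReal_iff.1 h3
      conv_rhs => rw [← this]
      rfl
    exact Complex.conj_eq_iff_im.1 h4
  unfold sy
  rw [Complex.mul_im, h2, Complex.ofReal_im]
  ring

theorem Rl_sub' {r : Bool} {z w : ℂ} (hz : Rl r z) (hw : Rl r w) : Rl r (z - w) := by
  intro h
  rw [Complex.sub_im, hz h, hw h, sub_zero]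

theorem Rl_add' {r : Bool} {z w : ℂ} (hz : Rl r z) (hw : Rl r w) : Rl r (z + w) := by
  intro h
  rw [Complex.add_im, hz h, hw h, add_zero]

/-! ### The quasi-characters -/

theorem measurable_Gm (k : ℤ) (μ : ℂ) : Measurable (fun w : ℂ => Gm k μ w) := by
  unfold Gm
  refine Measurable.mul ?_ ?_
  · have h1 : Measurable (fun w : ℂ => w / ((‖w‖ : ℝ) : ℂ)) :=
      measurable_id.div (Complex.measurable_ofReal.comp measurable_norm)
    exact h1.pow_const k
  · exact Complex.measurable_exp.comp (measurable_const.mul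
      (Complex.measurable_ofReal.comp (Real.measurable_log.comp measurable_norm)))

theorem norm_Gm_le (k : ℤ) (μ : ℂ) (hμ : |μ.re| ≤ 8) {b z : ℂ} (hb : ‖b‖ ≤ 1 / 8)
    (hz : 1 / 2 ≤ ‖z‖) : ‖Gm k μ (1 + b / z)‖ ≤ Real.exp 8 := by
  have hz0 : 0 < ‖z‖ := by linarith
  have h1 : ‖b / z‖ ≤ 1 / 4 := by
    rw [norm_div, div_le_iff₀ hz0]
    linarith
  set a : ℂ := 1 + b / z with ha
  have h2 : ‖a‖ ≤ 5 / 4 := by
    calc ‖a‖ ≤ ‖(1 : ℂ)‖ + ‖b / z‖ := norm_add_le _ _
      _ ≤ 5 / 4 := by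
        rw [norm_one]
        linarith
  have h3 : 3 / 4 ≤ ‖a‖ := by
    have h4 : ‖(1 : ℂ)‖ ≤ ‖a‖ + ‖b / z‖ := by
      calc ‖(1 : ℂ)‖ = ‖a - b / z‖ := by
            rw [ha]
            ring_nf
        _ ≤ _ := norm_sub_le _ _
    rw [norm_one] at h4
    linarith
  have ha0 : 0 < ‖a‖ := by linarith
  have hl : |Real.log ‖a‖| ≤ 1 := by
    rw [abs_le]
    constructor
    · have h5 : Real.log (‖a‖)⁻¹ ≤ (‖a‖)⁻¹ - 1 := Real.log_le_sub_one_of_pos (by positivity)
      rw [Real.log_inv] at h5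
      have h6 : (‖a‖)⁻¹ ≤ (3 / 4 : ℝ)⁻¹ := inv_anti₀ (by norm_num) h3
      have h7 : (3 / 4 : ℝ)⁻¹ ≤ 2 := by norm_num
      linarith
    · have h5 := Real.log_le_sub_one_of_pos ha0
      linarith
  have hne : a ≠ 0 := norm_pos_iff.1 ha0
  unfold Gm
  rw [norm_mul, norm_zpow, norm_div, Complex.norm_real, norm_norm, div_self ha0.ne', one_zpow,
    one_mul, Complex.norm_exp]
  refine Real.exp_le_exp.2 ?_
  have h8 : (μ * ((Real.log ‖a‖ : ℝ) : ℂ)).re = μ.re * Real.log ‖a‖ := by simp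
  rw [h8]
  calc μ.re * Real.log ‖a‖ ≤ |μ.re * Real.log ‖a‖| := le_abs_self _
    _ = |μ.re| * |Real.log ‖a‖| := abs_mul _ _
    _ ≤ 8 * 1 := mul_le_mul hμ hl (abs_nonneg _) (by norm_num)
    _ = 8 := by norm_num

theorem PhA_zero {C : ℝ} {k : InfinitePlace K → ℤ} {μ : InfinitePlace K → ℂ}
    {A : InfinitePlace K → ℂ → ℂ → ℂ} (hA : Amp C A) {b z : InfinitePlace K → ℂ}
    (h : ¬ ∀ v, ‖b v‖ ≤ 1 / 8) : PhA k μ A b z = 0 := by
  push Not at h
  obtain ⟨v, hv⟩ := h
  unfold PhA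
  refine Finset.prod_eq_zero (Finset.mem_univ v) ?_
  have h1 : A v (b v) (z v) = 0 := by
    by_contra h2
    exact absurd ((hA.bound v _ _).2 h2).1 (not_le.2 hv)
  rw [h1, zero_mul]

theorem PhA_meas {C : ℝ} {k : InfinitePlace K → ℤ} {μ : InfinitePlace K → ℂ}
    {A : InfinitePlace K → ℂ → ℂ → ℂ} (hA : Amp C A) (b : InfinitePlace K → ℂ) :
    Measurable (fun z : InfinitePlace K → ℂ => PhA k μ A b z) := by
  unfold PhA
  refine Finset.measurable_prod _ fun v _ => ?_
  have hz : Measurable (fun z : InfinitePlace K → ℂ => z v) := measurable_pi_apply v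
  refine Measurable.mul ?_ ?_
  · exact (hA.meas v).comp (measurable_const.prodMk hz)
  · exact (measurable_Gm (k v) (μ v)).comp (measurable_const.add (measurable_const.div hz))

theorem PhA_le {C : ℝ} {k : InfinitePlace K → ℤ} {μ : InfinitePlace K → ℂ} (hQ : Qk k μ)
    {A : InfinitePlace K → ℂ → ℂ → ℂ} (hA : Amp C A) {b z : InfinitePlace K → ℂ}
    (hb : ∀ v, Rl (rv v) (b v)) (hb8 : ∀ v, ‖b v‖ ≤ 1 / 8) (hz : ∀ v, Rl (rv v) (z v)) :
    ‖PhA k μ A b z‖ ≤ (C * Real.exp 8) ^ Fintype.card (InfinitePlace K) := by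
  unfold PhA
  rw [norm_prod]
  calc ∏ v, ‖A v (b v) (z v) * Gm (k v) (μ v) (1 + b v / z v)‖
      ≤ ∏ _v : InfinitePlace K, (C * Real.exp 8) := by
        refine Finset.prod_le_prod (fun v _ => norm_nonneg _) fun v _ => ?_
        have hC : 0 ≤ C := (norm_nonneg _).trans (hA.bound v (b v) (z v)).1
        by_cases h0 : A v (b v) (z v) = 0
        · rw [h0, zero_mul, norm_zero]
          positivity
        · have h1 := ((hA.smooth v (b v) (hb v) (hb8 v)).supp (z v) (hz v) h0).1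
          rw [norm_mul]
          exact mul_le_mul (hA.bound v (b v) (z v)).1
            (norm_Gm_le _ _ (hQ.loc v).re (hb8 v) h1) (norm_nonneg _) hC
    _ = _ := by rw [Finset.prod_const, Finset.card_univ]

theorem integ {C D : ℝ} {k : InfinitePlace K → ℤ} {μ : InfinitePlace K → ℂ} (hQ : Qk k μ)
    {A : InfinitePlace K → ℂ → ℂ → ℂ} (hA : Amp C A) {η : InfinitePlace K → ℝ}
    {κ : (InfinitePlace K → ℂ) → ℂ} (hκm : Measurable κ) (hκb : ∀ s, ‖κ s‖ ≤ D)
    (hκs : ∀ s, κ s ≠ 0 → ∀ v, ‖s v‖ ≤ 2 * η v) {b p : InfinitePlace K → ℂ}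
    (hb : ∀ v, Rl (rv v) (b v)) (hb8 : ∀ v, ‖b v‖ ≤ 1 / 8) (hp : ∀ v, Rl (rv v) (p v)) :
    Integrable (fun s => κ s * PhA k μ A b (fun v => p v + s v)) (mK K) := by
  classical
  set S : Set (InfinitePlace K → ℂ) :=
    Set.univ.pi fun v => Metric.closedBall 0 (2 * η v) with hS
  have hSm : MeasurableSet S :=
    MeasurableSet.univ_pi fun _ => Metric.isClosed_closedBall.measurableSet
  have hSf : mK K S < ⊤ := by
    rw [hS, mK, Measure.pi_pi]
    exact ENNReal.prod_lt_top fun v _ => mz_ball (rv v) _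
  have hint : Integrable (S.indicator fun _ : InfinitePlace K → ℂ =>
      D * (C * Real.exp 8) ^ Fintype.card (InfinitePlace K)) (mK K) := by
    rw [integrable_indicator_iff hSm]
    exact integrableOn_const hSf.ne
  have hmeas : Measurable (fun s => κ s * PhA k μ A b (fun v => p v + s v)) := by
    refine hκm.mul ((PhA_meas hA b).comp ?_)
    exact measurable_pi_lambda _ fun v => measurable_const.add (measurable_pi_apply v)
  refine hint.mono' hmeas.aestronglyMeasurable ?_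
  filter_upwards [mK_Rl (K := K)] with s hs
  have hD : 0 ≤ D := (norm_nonneg _).trans (hκb s)
  by_cases h0 : κ s = 0
  · rw [h0, zero_mul, norm_zero]
    refine Set.indicator_nonneg (fun _ _ => ?_) _
    have hC : 0 ≤ C := by
      have v : InfinitePlace K := Classical.arbitrary _
      exact (norm_nonneg _).trans (hA.bound v 0 0).1
    positivity
  · have hsS : s ∈ S := by
      rw [hS]
      intro v _
      rw [Metric.mem_closedBall, dist_zero_right]
      exact hκs s h0 v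
    rw [Set.indicator_of_mem hsS, norm_mul]
    exact mul_le_mul (hκb s) (PhA_le hQ hA hb hb8 fun v => Rl_add' (hp v) (hs v))
      (norm_nonneg _) hD

/-! ### The sums -/

theorem memL_sub {L : FI K} {x x' : K} (h : x ∈ L) (h' : x' ∈ L) : x - x' ∈ L := by
  rw [← FractionalIdeal.mem_coe] at h h' ⊢
  exact Submodule.sub_mem _ h h'

theorem memL_add {L : FI K} {x x' : K} (h : x ∈ L) (h' : x' ∈ L) : x + x' ∈ L := by
  rw [← FractionalIdeal.mem_coe] at h h' ⊢
  exact Submodule.add_mem _ h h'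

theorem mul_le'' (j : Ideal (𝓞 K)) (M : FI K) : (j : FI K) * M ≤ M := by
  have h1 : (j : FI K) ≤ 1 := FractionalIdeal.coeIdeal_le_one
  calc (j : FI K) * M ≤ 1 * M := mul_le_mul_left h1 M
    _ = M := one_mul M

/-- the sums are periodic -/
theorem TT_per {f : Ideal (𝓞 K)} {L : FI K} (c : K → ℂ)
    (hc : ∀ x ∈ L, ∀ l ∈ (f : FI K) * L, c (x + l) = c x) (y : InfinitePlace K → ℝ)
    (Φ : (InfinitePlace K → ℂ) → (InfinitePlace K → ℂ) → ℂ) (ζ z : InfinitePlace K → ℂ) {x : K}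
    (hx : x ∈ (f : FI K) * L) :
    TT c L y Φ (fun v => ζ v + sy y x v) z = TT c L y Φ ζ z := by
  have hxL : x ∈ L := mul_le'' f L hx
  set e : {u : K // u ∈ L} ≃ {u : K // u ∈ L} := (Equiv.addRight x).subtypeEquiv fun u =>
    ⟨fun h => memL_add h hxL, fun h => by
      have := memL_sub h hxL
      simpa using this⟩ with he
  unfold TT
  rw [← e.tsum_eq]
  refine tsum_congr fun u => ?_
  have h1 : ((e u : {u : K // u ∈ L}) : K) = u.1 + x := rfl
  rw [h1, hc u.1 u.2 x hx]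
  congr 2
  funext v
  rw [sy_add]
  ring

/-- the finite set of the points near `ζ` -/
theorem fin_near (hNB : K_NB) {L : FI K} (hL : L ≠ 0) (y : InfinitePlace K → ℝ)
    (ζ : InfinitePlace K → ℂ) :
    {x : {x : K // x ∈ L} | ∀ v, ‖sy y x.1 v - ζ v‖ ≤ 1 / 8}.Finite := by
  obtain ⟨C, -, h⟩ := hNB (Module.finrank ℚ K) Module.finrank_pos
  have h1 := (h K rfl L y (fun v => ‖ζ v‖ + 1) hL (fun v => by positivity)).1
  have h2 : ({h : K | h ∈ L ∧ h ≠ 0 ∧ ∀ v, ‖sy y h v‖ ≤ ‖ζ v‖ + 1} ∪ {0}).Finite :=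
    h1.union (Set.finite_singleton 0)
  refine Set.Finite.of_finite_image (f := Subtype.val) (h2.subset ?_)
    Subtype.val_injective.injOn
  rintro _ ⟨x, hx, rfl⟩
  by_cases h0 : x.1 = 0
  · exact Or.inr h0
  · refine Or.inl ⟨x.2, h0, fun v => ?_⟩
    have h3 := hx v
    calc ‖sy y x.1 v‖ = ‖(sy y x.1 v - ζ v) + ζ v‖ := by rw [sub_add_cancel]
      _ ≤ ‖sy y x.1 v - ζ v‖ + ‖ζ v‖ := norm_add_le _ _
      _ ≤ ‖ζ v‖ + 1 := by linarith

open scoped Classical in
/-- indicator function of the box -/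
noncomputable def bi (η : InfinitePlace K → ℝ) (z ζ : InfinitePlace K → ℂ) : ℝ≥0∞ :=
  if ∀ v : InfinitePlace K, ‖ζ v - z v‖ ≤ 2 * η v then 1 else 0

theorem bi_meas (η : InfinitePlace K → ℝ) :
    Measurable (fun q : (InfinitePlace K → ℂ) × (InfinitePlace K → ℂ) => bi η q.1 q.2) := by
  classical
  unfold bi
  refine Measurable.ite ?_ measurable_const measurable_const
  have : {q : (InfinitePlace K → ℂ) × (InfinitePlace K → ℂ) |
      ∀ v, ‖q.2 v - q.1 v‖ ≤ 2 * η v} = ⋂ v, {q | ‖q.2 v - q.1 v‖ ≤ 2 * η v} := by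
    ext q
    simp
  rw [this]
  exact MeasurableSet.iInter fun v => measurableSet_le (by fun_prop) measurable_const

/-- the sum over the representatives -/
theorem sum_reps {a : Ideal (𝓞 K)} {M N : FI K} (haN : (a : FI K) * M = N) (hNM : N ≤ M)
    {V : Finset K} (hV : Rep K a M V) (h : K → ℝ≥0∞) :
    ∑' x : {x : K // x ∈ N}, ∑ w ∈ V, h (x.1 + w) ≤ ∑' u : {u : K // u ∈ M}, h u.1 := by
  classical
  have h1 : ∀ x : {x : K // x ∈ N}, ∑ w ∈ V, h (x.1 + w) =
      ∑' w : {w : K // w ∈ V}, h (x.1 + w.1) := by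
    intro x
    rw [tsum_fintype, Finset.sum_coe_sort V (fun w => h (x.1 + w))]
  rw [tsum_congr h1, ← ENNReal.tsum_prod]
  set φ : {x : K // x ∈ N} × {w : K // w ∈ V} → {u : K // u ∈ M} := fun q =>
    ⟨q.1.1 + q.2.1, memL_add (hNM q.1.2) (hV.1 q.2.1 q.2.2)⟩ with hφ
  have hinj : Function.Injective φ := by
    rintro ⟨x, w⟩ ⟨x', w'⟩ hq
    have h2 : x.1 + w.1 = x'.1 + w'.1 := congrArg Subtype.val hq
    have hM : x.1 + w.1 ∈ M := memL_add (hNM x.2) (hV.1 w.1 w.2)
    obtain ⟨r, -, hr⟩ := hV.2 _ hM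
    rw [haN] at hr
    have h3 := hr w.1 ⟨w.2, by rw [add_sub_cancel_right]; exact x.2⟩
    have h4 := hr w'.1 ⟨w'.2, by rw [h2, add_sub_cancel_right]; exact x'.2⟩
    have h5 : w = w' := Subtype.ext (h3.trans h4.symm)
    subst h5
    have h6 : x = x' := Subtype.ext (add_right_cancel h2)
    rw [h6]
  exact ENNReal.tsum_comp_le_tsum_of_injective hinj fun u : {u : K // u ∈ M} => h u.1

/-! ### One position -/

open scoped Classical in
theorem term_le (hNB : K_NB) {C D : ℝ} {k : InfinitePlace K → ℤ} {μ : InfinitePlace K → ℂ}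
    (hQ : Qk k μ) {η : InfinitePlace K → ℝ} {L : FI K} (hL : L ≠ 0)
    {κ : (InfinitePlace K → Fin 4) → (InfinitePlace K → ℂ) → ℂ}
    {A : (InfinitePlace K → Fin 4) → InfinitePlace K → ℂ → ℂ → ℂ}
    (hκm : ∀ j, Measurable (κ j)) (hκb : ∀ j s, ‖κ j s‖ ≤ D)
    (hκs : ∀ j s, κ j s ≠ 0 → ∀ v, ‖s v‖ ≤ 2 * η v) (hA : ∀ j, Amp C (A j))
    (hrep : ∀ b p : InfinitePlace K → ℂ, (∀ v, Rl (rv v) (b v)) → (∀ v, Rl (rv v) (p v)) →
      p ∈ AnK K → Ph0 k μ b p = ∑ j : InfinitePlace K → Fin 4,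
        ∫ s, κ j s * PhA k μ (A j) b (fun v => p v + s v) ∂mK K)
    (y : InfinitePlace K → ℝ) (c : K → ℂ) {p : InfinitePlace K → ℂ}
    (hp : ∀ v, Rl (rv v) (p v)) (hpA : p ∈ AnK K) (w : K) :
    ‖∑' x : {x : K // x ∈ L}, c x * Ph0 k μ (fun v => sy y (x.1 + w) v - p v) p‖ₑ ≤
      ∑ j : InfinitePlace K → Fin 4, ∫⁻ s, ‖κ j s‖ₑ *
        ‖TT c L y (PhA k μ (A j)) (fun v => p v - sy y w v) (fun v => p v + s v)‖ₑ ∂mK K := by
  set ζ : InfinitePlace K → ℂ := fun v => p v - sy y w v with hζ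
  have hb : ∀ x : K, (fun v => sy y (x + w) v - p v) = fun v => sy y x v - ζ v := by
    intro x
    funext v
    rw [sy_add, hζ]
    ring
  set S : Finset {x : K // x ∈ L} := (fin_near hNB hL y ζ).toFinset with hS
  have hSmem : ∀ x, x ∈ S ↔ ∀ v, ‖sy y x.1 v - ζ v‖ ≤ 1 / 8 := by
    intro x
    rw [hS, Set.Finite.mem_toFinset]
    exact Iff.rfl
  have hRl : ∀ (x : K) v, Rl (rv v) (sy y x v - ζ v) := fun x v =>
    Rl_sub' (sy_Rl y x v) (Rl_sub' (hp v) (sy_Rl y w v))
  have h1 : ∑' x : {x : K // x ∈ L}, c x * Ph0 k μ (fun v => sy y (x.1 + w) v - p v) p =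
      ∑ x ∈ S, c x * Ph0 k μ (fun v => sy y x.1 v - ζ v) p := by
    rw [tsum_congr fun x : {x : K // x ∈ L} => by rw [hb x.1]]
    refine tsum_eq_sum fun x hx => ?_
    rw [hSmem] at hx
    unfold Ph0
    rw [if_neg hx, mul_zero]
  have h2 : ∀ (j : InfinitePlace K → Fin 4) (z : InfinitePlace K → ℂ),
      TT c L y (PhA k μ (A j)) ζ z = ∑ x ∈ S, c x * PhA k μ (A j) (fun v => sy y x.1 v - ζ v) z := by
    intro j z
    unfold TT
    refine tsum_eq_sum fun x hx => ?_
    rw [hSmem] at hx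
    rw [PhA_zero (hA j) hx, mul_zero]
  have h3 : ∀ x ∈ S, c x * Ph0 k μ (fun v => sy y x.1 v - ζ v) p =
      ∑ j : InfinitePlace K → Fin 4, ∫ s, c x * (κ j s * PhA k μ (A j)
        (fun v => sy y x.1 v - ζ v) (fun v => p v + s v)) ∂mK K := by
    intro x _
    rw [hrep _ p (hRl x.1) hp hpA, Finset.mul_sum]
    exact Finset.sum_congr rfl fun j _ => (integral_const_mul _ _).symm
  have h4 : ∑' x : {x : K // x ∈ L}, c x * Ph0 k μ (fun v => sy y (x.1 + w) v - p v) p =
      ∑ j : InfinitePlace K → Fin 4, ∫ s, κ j s *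
        TT c L y (PhA k μ (A j)) ζ (fun v => p v + s v) ∂mK K := by
    rw [h1, Finset.sum_congr rfl h3, Finset.sum_comm]
    refine Finset.sum_congr rfl fun j _ => ?_
    rw [← integral_finsetSum]
    · refine integral_congr_ae (Filter.Eventually.of_forall fun s => ?_)
      simp only
      rw [h2, Finset.mul_sum]
      exact Finset.sum_congr rfl fun x _ => by ring
    · intro x hx
      exact (integ hQ (hA j) (hκm j) (hκb j) (hκs j) (hRl x.1) ((hSmem x).1 hx) hp).const_mul _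
  rw [h4]
  refine (enorm_sum_le _ _).trans (Finset.sum_le_sum fun j _ => ?_)
  refine (enorm_integral_le_lintegral_enorm _).trans (le_of_eq ?_)
  exact lintegral_congr fun s => enorm_mul _ _

theorem meas_ZB : MeasurableSet (ZB K) := by
  have : ZB K = ⋂ v, {z : InfinitePlace K → ℂ | ‖z v‖ ≤ 3} := by
    ext z
    simp [ZB]
  rw [this]
  exact MeasurableSet.iInter fun v => measurableSet_le (by fun_prop) measurable_const

theorem meas_AnK : MeasurableSet (AnK K) := by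
  have : AnK K = ⋂ v, ({z : InfinitePlace K → ℂ | 1 ≤ ‖z v‖} ∩ {z | ‖z v‖ ≤ 2}) := by
    ext z
    simp [AnK]
  rw [this]
  exact MeasurableSet.iInter fun v => (measurableSet_le measurable_const (by fun_prop)).inter
    (measurableSet_le (by fun_prop) measurable_const)

/-- the substitution `z = p + s` -/
theorem subst_z {D : ℝ} {η : InfinitePlace K → ℝ} (hη : ∀ v, η v ≤ 1 / 16)
    {κ : (InfinitePlace K → ℂ) → ℂ} (hκb : ∀ s, ‖κ s‖ ≤ D)
    (hκs : ∀ s, κ s ≠ 0 → ∀ v, ‖s v‖ ≤ 2 * η v) {T : (InfinitePlace K → ℂ) → ℝ≥0∞}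
    (hT : Measurable T) {p : InfinitePlace K → ℂ} (hp : ∀ v, Rl (rv v) (p v))
    (hpA : p ∈ AnK K) :
    ∫⁻ s, ‖κ s‖ₑ * T (fun v => p v + s v) ∂mK K ≤
      ENNReal.ofReal D * ∫⁻ z in ZB K, bi η z p * T z ∂mK K := by
  classical
  have hbm : Measurable (fun z : InfinitePlace K → ℂ => bi η z p) :=
    (bi_meas η).comp (measurable_id.prodMk measurable_const)
  have h1 : ∀ s, ‖κ s‖ₑ * T (fun v => p v + s v) ≤
      ENNReal.ofReal D * (bi η (fun v => s v + p v) p * T (fun v => s v + p v)) := by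
    intro s
    have e1 : (fun v => p v + s v) = fun v => s v + p v := by
      funext v
      ring
    rw [e1, ← mul_assoc]
    refine mul_le_mul_left ?_ _
    by_cases h0 : κ s = 0
    · rw [h0, enorm_zero]
      exact zero_le
    · have h2 : bi η (fun v => s v + p v) p = 1 := by
        unfold bi
        rw [if_pos]
        intro v
        rw [show p v - (s v + p v) = -s v by ring, norm_neg]
        exact hκs s h0 v
      rw [h2, mul_one, ← ofReal_norm]
      exact ENNReal.ofReal_le_ofReal (hκb s)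
  have hg : Measurable (fun z : InfinitePlace K → ℂ => bi η z p * T z) := hbm.mul hT
  calc ∫⁻ s, ‖κ s‖ₑ * T (fun v => p v + s v) ∂mK K
      ≤ ∫⁻ s, ENNReal.ofReal D * (bi η (fun v => s v + p v) p * T (fun v => s v + p v)) ∂mK K :=
        lintegral_mono h1
    _ = ENNReal.ofReal D * ∫⁻ s, bi η (fun v => s v + p v) p * T (fun v => s v + p v) ∂mK K :=
        lintegral_const_mul' _ _ ENNReal.ofReal_ne_top
    _ = ENNReal.ofReal D * ∫⁻ z, bi η z p * T z ∂mK K := by
        congr 1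
        exact (mK_shift p hp).lintegral_comp hg
    _ = ENNReal.ofReal D * ∫⁻ z in ZB K, bi η z p * T z ∂mK K := by
        congr 1
        rw [← lintegral_indicator meas_ZB]
        refine lintegral_congr fun z => ?_
        by_cases hz : z ∈ ZB K
        · rw [Set.indicator_of_mem hz]
        · rw [Set.indicator_of_notMem hz]
          have h3 : bi η z p = 0 := by
            unfold bi
            rw [if_neg]
            intro h4
            apply hz
            intro v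
            have h5 := h4 v
            have h6 := (hpA v).2
            have h7 := hη v
            calc ‖z v‖ = ‖p v - (p v - z v)‖ := by rw [sub_sub_cancel]
              _ ≤ ‖p v‖ + ‖p v - z v‖ := norm_sub_le _ _
              _ ≤ 3 := by linarith
          rw [h3, zero_mul]

/-- unfolding modulo the lattice `f L` -/
theorem unfold_F {f a : Ideal (𝓞 K)} {L : FI K} (ha : a ≠ ⊥) {c : K → ℂ}
    (hc : ∀ x ∈ L, ∀ l ∈ (f : FI K) * L, c (x + l) = c x) {y η : InfinitePlace K → ℝ}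
    {F : Set (InfinitePlace K → ℂ)} (hFS : FS ((f : FI K) * L) y F) {V : Finset K}
    (hV : Rep K a ((f : FI K) * ((a : FI K)⁻¹ * L)) V)
    {Φ : (InfinitePlace K → ℂ) → (InfinitePlace K → ℂ) → ℂ}
    (hm : Measurable (fun q : (InfinitePlace K → ℂ) × (InfinitePlace K → ℂ) =>
      TT c L y Φ q.1 q.2)) (z : InfinitePlace K → ℂ) :
    ∫⁻ p, ∑ w ∈ V, bi η z p * ‖TT c L y Φ (fun v => p v - sy y w v) z‖ₑ ∂mK K ≤
      ∫⁻ ζ in F, nA f L y η a ζ z * ‖TT c L y Φ ζ z‖ₑ ∂mK K := by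
  classical
  have := cntK (K := K)
  have hmz : Measurable (fun ζ : InfinitePlace K → ℂ => ‖TT c L y Φ ζ z‖ₑ) :=
    (hm.comp (measurable_id.prodMk measurable_const)).enorm
  have hbm : Measurable (fun p : InfinitePlace K → ℂ => bi η z p) :=
    (bi_meas η).comp (measurable_const.prodMk measurable_id)
  have hg : ∀ w : K, Measurable (fun ζ : InfinitePlace K → ℂ =>
      bi η z (fun v => ζ v + sy y w v) * ‖TT c L y Φ ζ z‖ₑ) := by
    intro w
    refine Measurable.mul (hbm.comp ?_) hmz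
    exact measurable_pi_lambda _ fun v => (measurable_pi_apply v).add_const _
  have hg' : ∀ w : K, Measurable (fun p : InfinitePlace K → ℂ =>
      bi η z p * ‖TT c L y Φ (fun v => p v - sy y w v) z‖ₑ) := by
    intro w
    refine Measurable.mul hbm (hmz.comp ?_)
    exact measurable_pi_lambda _ fun v => (measurable_pi_apply v).sub_const _
  have h1 : ∀ w : K, ∫⁻ p, bi η z p * ‖TT c L y Φ (fun v => p v - sy y w v) z‖ₑ ∂mK K =
      ∫⁻ ζ, bi η z (fun v => ζ v + sy y w v) * ‖TT c L y Φ ζ z‖ₑ ∂mK K := by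
    intro w
    rw [← (mK_shift (sy y w) (sy_Rl y w)).lintegral_comp (hg' w)]
    refine lintegral_congr fun ζ => ?_
    simp only [add_sub_cancel_right]
  have haM : (a : FI K) * ((f : FI K) * ((a : FI K)⁻¹ * L)) = (f : FI K) * L := by
    have h : (a : FI K) ≠ 0 := by rwa [Ne, FractionalIdeal.coeIdeal_eq_zero]
    field_simp
  have hNM : (f : FI K) * L ≤ (f : FI K) * ((a : FI K)⁻¹ * L) := by
    rw [← haM]
    exact mul_le'' a _
  calc ∫⁻ p, ∑ w ∈ V, bi η z p * ‖TT c L y Φ (fun v => p v - sy y w v) z‖ₑ ∂mK K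
      = ∑ w ∈ V, ∫⁻ p, bi η z p * ‖TT c L y Φ (fun v => p v - sy y w v) z‖ₑ ∂mK K :=
        lintegral_finsetSum _ fun w _ => hg' w
    _ = ∑ w ∈ V, ∫⁻ ζ, bi η z (fun v => ζ v + sy y w v) * ‖TT c L y Φ ζ z‖ₑ ∂mK K :=
        Finset.sum_congr rfl fun w _ => h1 w
    _ = ∫⁻ ζ, ∑ w ∈ V, bi η z (fun v => ζ v + sy y w v) * ‖TT c L y Φ ζ z‖ₑ ∂mK K :=
        (lintegral_finsetSum _ fun w _ => hg w).symm
    _ = ∫⁻ ζ in F, ∑' x : {x : K // x ∈ (f : FI K) * L}, ∑ w ∈ V,
          bi η z (fun v => ζ v + sy y x.1 v + sy y w v) *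
            ‖TT c L y Φ (fun v => ζ v + sy y x.1 v) z‖ₑ ∂mK K :=
        hFS.2 _ (Finset.measurable_fun_sum _ fun w _ => hg w)
    _ ≤ ∫⁻ ζ in F, nA f L y η a ζ z * ‖TT c L y Φ ζ z‖ₑ ∂mK K := by
        refine lintegral_mono fun ζ => ?_
        have h2 : ∀ x : {x : K // x ∈ (f : FI K) * L}, ∑ w ∈ V,
            bi η z (fun v => ζ v + sy y x.1 v + sy y w v) *
              ‖TT c L y Φ (fun v => ζ v + sy y x.1 v) z‖ₑ =
            (∑ w ∈ V, bi η z (fun v => ζ v + sy y (x.1 + w) v)) * ‖TT c L y Φ ζ z‖ₑ := by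
          intro x
          rw [TT_per c hc y Φ ζ z x.2, Finset.sum_mul]
          refine Finset.sum_congr rfl fun w _ => ?_
          congr 2
          funext v
          rw [sy_add]
          ring
        rw [tsum_congr h2, ENNReal.tsum_mul_right]
        refine mul_le_mul_left ?_ _
        exact sum_reps haM hNM hV fun u => bi η z (fun v => ζ v + sy y u v)

theorem meas_T2 {c : K → ℂ} {L : FI K} {y : InfinitePlace K → ℝ}
    {Φ : (InfinitePlace K → ℂ) → (InfinitePlace K → ℂ) → ℂ}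
    (hm : Measurable (fun q : (InfinitePlace K → ℂ) × (InfinitePlace K → ℂ) =>
      TT c L y Φ q.1 q.2)) (ζ : InfinitePlace K → ℂ) :
    Measurable (fun z : InfinitePlace K → ℂ => ‖TT c L y Φ ζ z‖ₑ) := by
  have h1 : Measurable (fun z : InfinitePlace K → ℂ => (ζ, z)) :=
    measurable_const.prodMk measurable_id
  exact (hm.comp h1).enorm

theorem meas_W {c : K → ℂ} {L : FI K} {y : InfinitePlace K → ℝ} (η : InfinitePlace K → ℝ)
    {Φ : (InfinitePlace K → ℂ) → (InfinitePlace K → ℂ) → ℂ}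
    (hm : Measurable (fun q : (InfinitePlace K → ℂ) × (InfinitePlace K → ℂ) =>
      TT c L y Φ q.1 q.2)) (w : K) :
    Measurable (fun q : (InfinitePlace K → ℂ) × (InfinitePlace K → ℂ) =>
      bi η q.2 q.1 * ‖TT c L y Φ (fun v => q.1 v - sy y w v) q.2‖ₑ) := by
  have h1 : Measurable (fun q : (InfinitePlace K → ℂ) × (InfinitePlace K → ℂ) =>
      (q.2, q.1)) := measurable_snd.prodMk measurable_fst
  have h3 : Measurable (fun q : (InfinitePlace K → ℂ) × (InfinitePlace K → ℂ) =>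
      ((fun v => q.1 v - sy y w v : InfinitePlace K → ℂ), q.2)) := by
    refine Measurable.prodMk ?_ measurable_snd
    exact measurable_pi_lambda _ fun v =>
      ((measurable_pi_apply v).comp measurable_fst).sub_const _
  have h4 := (bi_meas η).comp h1
  have h5 := (hm.comp h3).enorm
  exact h4.mul h5

theorem meas_W1 {c : K → ℂ} {L : FI K} {y : InfinitePlace K → ℝ} (η : InfinitePlace K → ℝ)
    {Φ : (InfinitePlace K → ℂ) → (InfinitePlace K → ℂ) → ℂ}
    (hm : Measurable (fun q : (InfinitePlace K → ℂ) × (InfinitePlace K → ℂ) =>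
      TT c L y Φ q.1 q.2)) (w : K) (p : InfinitePlace K → ℂ) :
    Measurable (fun z : InfinitePlace K → ℂ =>
      bi η z p * ‖TT c L y Φ (fun v => p v - sy y w v) z‖ₑ) := by
  have h1 : Measurable (fun z : InfinitePlace K → ℂ => (p, z)) :=
    measurable_const.prodMk measurable_id
  have h2 := (meas_W η hm w).comp h1
  exact h2

open scoped Classical in
/-- the bound at one position -/
theorem pos_le (hSH : N_SH) (hNB : K_NB) {C D : ℝ} {f a : Ideal (𝓞 K)} (hf : f ≠ ⊥) (ha : a ≠ ⊥)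
    (hcop : a ⊔ f = ⊤) (χ : HG K f) {μ : InfinitePlace K → ℂ} (hQ : Qk χ.k μ)
    {η : InfinitePlace K → ℝ} (hη : ∀ v, η v ≤ 1 / 16) {L : FI K} (hL : L ≠ 0)
    {κ : (InfinitePlace K → Fin 4) → (InfinitePlace K → ℂ) → ℂ}
    {A : (InfinitePlace K → Fin 4) → InfinitePlace K → ℂ → ℂ → ℂ}
    (hκm : ∀ j, Measurable (κ j)) (hκb : ∀ j s, ‖κ j s‖ ≤ D)
    (hκs : ∀ j s, κ j s ≠ 0 → ∀ v, ‖s v‖ ≤ 2 * η v) (hA : ∀ j, Amp C (A j))
    (hrep : ∀ b p : InfinitePlace K → ℂ, (∀ v, Rl (rv v) (b v)) → (∀ v, Rl (rv v) (p v)) →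
      p ∈ AnK K → Ph0 χ.k μ b p = ∑ j : InfinitePlace K → Fin 4,
        ∫ s, κ j s * PhA χ.k μ (A j) b (fun v => p v + s v) ∂mK K)
    (y : InfinitePlace K → ℝ)
    (hTm : ∀ j, Measurable (fun q : (InfinitePlace K → ℂ) × (InfinitePlace K → ℂ) =>
      TT (cg χ L) L y (PhA χ.k μ (A j)) q.1 q.2)) {V : Finset K}
    (hV : Rep K a ((f : FI K) * ((a : FI K)⁻¹ * L)) V) {p : InfinitePlace K → ℂ}
    (hp : ∀ v, Rl (rv v) (p v)) (hpA : p ∈ AnK K) :
    ENNReal.ofReal ‖∑' x : {x : K // x ∈ (a : FI K)⁻¹ * L}, cg χ ((a : FI K)⁻¹ * L) x *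
        Ph0 χ.k μ (fun v => sy y x.1 v - p v) p‖ ≤
      ∑ j : InfinitePlace K → Fin 4, ENNReal.ofReal D *
        ∫⁻ z in ZB K, ∑ w ∈ V, bi η z p *
          ‖TT (cg χ L) L y (PhA χ.k μ (A j)) (fun v => p v - sy y w v) z‖ₑ ∂mK K := by
  have ha0 : (a : FI K) ≠ 0 := by rwa [Ne, FractionalIdeal.coeIdeal_eq_zero]
  have hM : (a : FI K)⁻¹ * L ≠ 0 := mul_ne_zero (inv_ne_zero ha0) hL
  have hfin : {x : K | x ∈ (a : FI K)⁻¹ * L ∧
      Ph0 χ.k μ (fun v => sy y x v - p v) p ≠ 0}.Finite := by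
    refine ((fin_near hNB hM y p).image Subtype.val).subset ?_
    rintro x ⟨hx, hx0⟩
    refine ⟨⟨x, hx⟩, ?_, rfl⟩
    by_contra h3
    apply hx0
    unfold Ph0
    exact if_neg h3
  have h3 := hSH K f a hf ha hcop χ L V (fun x => Ph0 χ.k μ (fun v => sy y x v - p v) p) hL hV
    hfin
  rw [ofReal_norm, h3, enorm_mul]
  have h4 : ‖χ.ψ a‖ₑ = 1 := by
    rw [← ofReal_norm, χ.norm_one a ha hcop, ENNReal.ofReal_one]
  rw [h4, one_mul]
  have h5 : ∀ w ∈ V, ‖∑' x : {x : K // x ∈ L}, cg χ L x *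
      Ph0 χ.k μ (fun v => sy y (x.1 + w) v - p v) p‖ₑ ≤
      ∑ j : InfinitePlace K → Fin 4, ENNReal.ofReal D * ∫⁻ z in ZB K, bi η z p *
        ‖TT (cg χ L) L y (PhA χ.k μ (A j)) (fun v => p v - sy y w v) z‖ₑ ∂mK K := by
    intro w _
    refine (term_le hNB hQ hL hκm hκb hκs hA hrep y (cg χ L) hp hpA w).trans ?_
    refine Finset.sum_le_sum fun j _ => ?_
    have h6 := subst_z hη (hκb j) (hκs j) (meas_T2 (hTm j) fun v => p v - sy y w v) hp hpA
    exact h6
  refine (enorm_sum_le _ _).trans ((Finset.sum_le_sum h5).trans (le_of_eq ?_))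
  rw [Finset.sum_comm]
  refine Finset.sum_congr rfl fun j _ => ?_
  rw [← Finset.mul_sum, lintegral_finsetSum]
  intro w _
  exact meas_W1 η (hTm j) w p

open scoped Classical in
/-- the integral over the positions -/
theorem int_le {D : ℝ} {f a : Ideal (𝓞 K)} (ha : a ≠ ⊥) {c : K → ℂ}
    {η : InfinitePlace K → ℝ} {L : FI K}
    (hc : ∀ x ∈ L, ∀ l ∈ (f : FI K) * L, c (x + l) = c x)
    {Φ : (InfinitePlace K → Fin 4) → (InfinitePlace K → ℂ) → (InfinitePlace K → ℂ) → ℂ}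
    {y : InfinitePlace K → ℝ} {F : Set (InfinitePlace K → ℂ)} (hFS : FS ((f : FI K) * L) y F)
    (hTm : ∀ j, Measurable (fun q : (InfinitePlace K → ℂ) × (InfinitePlace K → ℂ) =>
      TT c L y (Φ j) q.1 q.2)) {V : Finset K}
    (hV : Rep K a ((f : FI K) * ((a : FI K)⁻¹ * L)) V) :
    ∫⁻ p, ∑ j : InfinitePlace K → Fin 4, ENNReal.ofReal D * ∫⁻ z in ZB K, ∑ w ∈ V, bi η z p *
        ‖TT c L y (Φ j) (fun v => p v - sy y w v) z‖ₑ ∂mK K ∂mK K ≤
      ∑ j : InfinitePlace K → Fin 4, ENNReal.ofReal D *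
        ∫⁻ z in ZB K, ∫⁻ ζ in F, nA f L y η a ζ z * ‖TT c L y (Φ j) ζ z‖ₑ ∂mK K ∂mK K := by
  have hWs : ∀ j, Measurable (fun q : (InfinitePlace K → ℂ) × (InfinitePlace K → ℂ) =>
      ∑ w ∈ V, bi η q.2 q.1 * ‖TT c L y (Φ j) (fun v => q.1 v - sy y w v) q.2‖ₑ) := fun j =>
    Finset.measurable_fun_sum _ fun w _ => meas_W η (hTm j) w
  have hI : ∀ j, Measurable (fun p : InfinitePlace K → ℂ => ∫⁻ z in ZB K, ∑ w ∈ V, bi η z p *
        ‖TT c L y (Φ j) (fun v => p v - sy y w v) z‖ₑ ∂mK K) := fun j =>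
    (hWs j).lintegral_prod_right'
  rw [lintegral_finsetSum _ fun j _ => (hI j).const_mul _]
  refine Finset.sum_le_sum fun j _ => ?_
  rw [lintegral_const_mul' _ _ ENNReal.ofReal_ne_top]
  refine mul_le_mul_right ?_ _
  have hsw := lintegral_lintegral_swap (μ := mK K) (ν := (mK K).restrict (ZB K))
    (f := fun (p z : InfinitePlace K → ℂ) => ∑ w ∈ V, bi η z p *
        ‖TT c L y (Φ j) (fun v => p v - sy y w v) z‖ₑ) (hWs j).aemeasurable
  rw [hsw]
  exact lintegral_mono fun z => unfold_F ha hc hFS hV (hTm j) z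

theorem Amp_mono {B B' : ℝ} {A : InfinitePlace K → ℂ → ℂ → ℂ} (h : Amp B A) (hB : B ≤ B') :
    Amp B' A where
  meas := h.meas
  smooth v b hb hb8 := by
    have h1 := h.smooth v b hb hb8
    exact ⟨fun z hz => (h1.bound z hz).trans hB, h1.supp,
      fun hr => ⟨(h1.real hr).1, fun x => ((h1.real hr).2 x).trans hB⟩,
      fun hr => ⟨(h1.cplx hr).1, fun x => ((h1.cplx hr).2 x).trans hB⟩⟩
  bound v b z := ⟨(h.bound v b z).1.trans hB, (h.bound v b z).2⟩

end NF

end NSD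

open NSD

open scoped Classical in
/-- (SD) shift and separation. -/
theorem pf_N_SD (hS1 : N_S1) (hSH : N_SH) (hDK : N_DK) (hMT : N_MT) (hNB : K_NB) (hCG : U_CG)
    (hRX : Pool.Agent.H28.RC.T_RX) : N_SD := by
  intro n hn0
  obtain ⟨C₁, hC₁, h1⟩ := hS1 n hn0
  obtain ⟨C₂, hC₂, h2⟩ := hDK n hn0
  refine ⟨max C₁ C₂, le_max_of_le_left hC₁,
    fun K _ _ hn f hf χ L y η F μ hL hFS hQ hη hηc => ?_⟩
  obtain ⟨κ, A, hκm, hκb, hκs, hA, hrep⟩ := h2 K hn χ.k μ η hQ hη hηc
  refine ⟨A, fun j => Amp_mono (hA j) (le_max_right _ _), fun a ha hcop => ?_⟩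
  have ha0 : (a : FI K) ≠ 0 := by rwa [Ne, FractionalIdeal.coeIdeal_eq_zero]
  have hf0 : (f : FI K) ≠ 0 := by rwa [Ne, FractionalIdeal.coeIdeal_eq_zero]
  have hM : (a : FI K)⁻¹ * L ≠ 0 := mul_ne_zero (inv_ne_zero ha0) hL
  obtain ⟨V, hV, -⟩ := hRX K a ((f : FI K) * ((a : FI K)⁻¹ * L)) ha (mul_ne_zero hf0 hM)
  obtain ⟨-, -, -, hper, -⟩ := hCG K f χ L hf hL
  have hη16 : ∀ v, η v ≤ 1 / 16 := by
    intro v
    have h3 := hηc v
    have h4 : 1 ≤ cc (χ.k v) (μ v) := by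
      unfold cc
      have := abs_nonneg (μ v).im
      have := abs_nonneg ((χ.k v : ℤ) : ℝ)
      linarith
    have h5 := hη v
    nlinarith
  set D : ℝ := (∏ v, η v ^ v.mult)⁻¹ with hD
  have hD0 : 0 ≤ D := by
    rw [hD]
    exact inv_nonneg.2 (Finset.prod_nonneg fun v _ => (pow_pos (hη v) _).le)
  have hTm : ∀ j, Measurable (fun q : (InfinitePlace K → ℂ) × (InfinitePlace K → ℂ) =>
      TT (cg χ L) L y (PhA χ.k μ (A j)) q.1 q.2) := fun j =>
    (hMT K f L y hL).1 (cg χ L) χ.k μ C₂ (A j) (hA j)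
  -- the integral over the positions
  have hint : ∫⁻ p in AnK K, ENNReal.ofReal ‖∑' x : {x : K // x ∈ (a : FI K)⁻¹ * L},
        cg χ ((a : FI K)⁻¹ * L) x * Ph0 χ.k μ (fun v => sy y x.1 v - p v) p‖ ∂mK K ≤
      ENNReal.ofReal D * ∑ j : InfinitePlace K → Fin 4, ∫⁻ z in ZB K, ∫⁻ ζ in F,
        nA f L y η a ζ z * ‖TT (cg χ L) L y (PhA χ.k μ (A j)) ζ z‖ₑ ∂mK K ∂mK K := by
    refine le_trans (lintegral_mono_ae ?_) ((setLIntegral_le_lintegral _ _).trans
      ((int_le (D := D) ha hper hFS hTm hV).trans (le_of_eq (Finset.mul_sum _ _ _).symm)))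
    filter_upwards [ae_restrict_of_ae (mK_Rl (K := K)), ae_restrict_mem meas_AnK] with p hp hpA
    exact pos_le hSH hNB hf ha hcop χ hQ hη16 hL hκm hκb hκs hA hrep y hTm hV hp hpA
  refine (h1 K hn f hf χ ((a : FI K)⁻¹ * L) y μ hM hQ).trans ?_
  refine (mul_le_mul' (ENNReal.ofReal_le_ofReal (le_max_left C₁ C₂)) hint).trans (le_of_eq ?_)
  rw [← mul_assoc, ← ENNReal.ofReal_mul (le_max_of_le_left (zero_le_one.trans hC₁))]
  simp only [ofReal_norm]

end Pool.Agent.H95.BH
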