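import Pool.Agent.H29.BH.Targets3
import Pool.Agent.H23.BG.TargetsP
import Pool.Agent.H35.GLB.HP
import Pool.Agent.H26.MV.Tors

/-!
# (C1) the first moments over the positions
-/

set_option autoImplicit false

open NumberField NumberField.InfinitePlace NumberField.Units
  NumberField.Units.dirichletUnitTheorem MeasureTheory Set Filter Complex
open scoped nonZeroDivisors ENNReal

namespace Pool.Agent.H95.BH.C1

open Pool.Agent.H25.HK Pool.Agent.H23.LB Pool.Agent.H23.LC Pool.Agent.H29.DW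
open Pool.Agent.H23.BG (Bx cb)
open Pool.Agent.H29.BH

variable {K : Type} [Field K] [NumberField K]

private theorem countable_K (K : Type) [Field K] [NumberField K] : Countable K := by
  have h1 := Algebraic.countable ℚ K
  have h2 : {x : K | IsAlgebraic ℚ x} = Set.univ :=
    Set.eq_univ_of_forall fun x => Algebra.IsAlgebraic.isAlgebraic x
  rw [h2] at h1
  exact Set.countable_univ_iff.1 h1

open scoped Classical in
private theorem vol_Fd : volume.real (Fd K) = regulator K := by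
  unfold regulator Fd
  exact (ZLattice.covolume_eq_measure_fundamentalDomain (unitLattice K) volume
    (ZLattice.isAddFundamentalDomain (basisUnitLattice K) volume)).symm

open scoped Classical in
private theorem vol_Fd' : volume (Fd K) = ENNReal.ofReal (regulator K) := by
  have h1 : volume (Fd K) ≠ ∞ := (ZSpan.fundamentalDomain_isBounded _).measure_lt_top.ne
  rw [← vol_Fd, ofReal_measureReal h1]

/-- the count as a sum over all points is the number of the points of a box -/
private theorem cn_le {C : ℝ} (hC : 1 ≤ C)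
    (hCB : ∀ (M : FI K) (y : InfinitePlace K → ℝ), M ≠ 0 →
    (Bx K M y).Finite ∧ 1 ≤ cb K M y ∧ cb K M y - 1 ≤ C * (th K M y - 1)) (L : FI K)
    (hL : L ≠ 0) (y R : InfinitePlace K → ℝ) (hR : ∀ v, 0 < R v) :
    cn L y R ≤ ENNReal.ofReal C *
      ENNReal.ofReal (th K L (fun v => y v + -(2 * Real.log (R v))) - 1) := by
  classical
  obtain ⟨h1, h2, h3⟩ := hCB L (fun v => y v + -(2 * Real.log (R v))) hL
  rw [← ENNReal.ofReal_mul (by linarith)]
  refine le_trans ?_ (ENNReal.ofReal_le_ofReal h3)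
  have h4 : ∀ h : K, (h ∈ L ∧ h ≠ 0 ∧ ∀ v, ‖sy y h v‖ ≤ R v) →
      h ∈ h1.toFinset.erase 0 := by
    intro h hh
    rw [Finset.mem_erase, Set.Finite.mem_toFinset]
    refine ⟨hh.2.1, hh.1, fun v => ?_⟩
    have h5 := hh.2.2 v
    have h6 : ‖sy y h v‖ = v h * Real.exp (y v / 2) := by
      unfold sy
      rw [norm_mul, Complex.norm_real, Real.norm_of_nonneg (Real.exp_pos _).le]
      congr 1
      exact InfinitePlace.norm_embedding_eq v h
    rw [h6] at h5
    have h7 : (y v + -(2 * Real.log (R v))) / 2 = y v / 2 - Real.log (R v) := by ring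
    simp only
    rw [h7, Real.exp_sub, Real.exp_log (hR v), ← mul_div_assoc, div_le_one (hR v)]
    exact h5
  unfold cn
  calc ∑' h : K, (if h ∈ L ∧ h ≠ 0 ∧ ∀ v, ‖sy y h v‖ ≤ R v then (1 : ℝ≥0∞) else 0)
      ≤ ∑' h : K, (if h ∈ h1.toFinset.erase 0 then (1 : ℝ≥0∞) else 0) := by
        refine ENNReal.tsum_le_tsum fun h => ?_
        split_ifs with h5 h6 h6
        · exact le_rfl
        · exact absurd (h4 h h5) h6
        · exact zero_le
        · exact le_rfl
    _ = ((h1.toFinset.erase 0).card : ℝ≥0∞) := by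
        rw [tsum_eq_sum (s := h1.toFinset.erase 0) (fun b hb => if_neg hb)]
        rw [Finset.sum_congr rfl (fun b hb => if_pos hb)]
        simp
    _ = ENNReal.ofReal (cb K L (fun v => y v + -(2 * Real.log (R v))) - 1) := by
        have h5 : (0 : K) ∈ h1.toFinset := by
          rw [Set.Finite.mem_toFinset]
          refine ⟨Submodule.zero_mem (L : Submodule (𝓞 K) K), fun v => ?_⟩
          simp
        rw [Finset.card_erase_of_mem h5]
        have h6 : 1 ≤ h1.toFinset.card := Finset.card_pos.2 ⟨0, h5⟩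
        unfold cb
        rw [Set.ncard_eq_toFinset_card _ h1]
        have h7 : ((h1.toFinset.card : ℕ) : ℝ) - 1 = ((h1.toFinset.card - 1 : ℕ) : ℝ) := by
          rw [Nat.cast_sub h6, Nat.cast_one]
        rw [h7, ENNReal.ofReal_natCast]

/-- change of the ideal -/
private theorem cn_smul (L : FI K) (y R : InfinitePlace K → ℝ) (a : K) (ha : a ≠ 0) :
    cn (FractionalIdeal.spanSingleton (𝓞 K)⁰ a⁻¹ * L) y R = cn L y (fun v => v a * R v) := by
  classical
  unfold cn
  rw [← (Equiv.mulLeft₀ a⁻¹ (inv_ne_zero ha)).tsum_eq]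
  refine tsum_congr fun h => ?_
  have h1 : (Equiv.mulLeft₀ a⁻¹ (inv_ne_zero ha)) h = a⁻¹ * h := rfl
  rw [h1]
  have h2 : (a⁻¹ * h ∈ FractionalIdeal.spanSingleton (𝓞 K)⁰ a⁻¹ * L ∧ a⁻¹ * h ≠ 0 ∧
      ∀ v, ‖sy y (a⁻¹ * h) v‖ ≤ R v) ↔ (h ∈ L ∧ h ≠ 0 ∧ ∀ v, ‖sy y h v‖ ≤ v a * R v) := by
    refine and_congr ?_ (and_congr ?_ (forall_congr' fun v => ?_))
    · rw [FractionalIdeal.mem_singleton_mul]
      constructor
      · rintro ⟨y', hy, h3⟩
        have : h = y' := mul_left_cancel₀ (inv_ne_zero ha) h3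
        rwa [this]
      · exact fun h3 => ⟨h, h3, rfl⟩
    · rw [mul_ne_zero_iff]
      exact and_iff_right (inv_ne_zero ha)
    · have hva : 0 < v a := (InfinitePlace.pos_iff).2 ha
      have h3 : ‖sy y (a⁻¹ * h) v‖ = (v a)⁻¹ * ‖sy y h v‖ := by
        unfold sy
        rw [map_mul, mul_assoc, norm_mul, InfinitePlace.norm_embedding_eq, map_inv₀]
      rw [h3, inv_mul_le_iff₀ hva]
  simp only [h2]

/-- measurability -/
private theorem cn_meas (L M : FI K) (R : InfinitePlace K → ℝ) :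
    Measurable (fun q : logSpace K × ℝ => cn L (yM K M q.2 q.1) R) := by
  classical
  have := countable_K K
  unfold cn
  refine Measurable.tsum fun h => ?_
  refine Measurable.ite ?_ measurable_const measurable_const
  by_cases h1 : h ∈ L ∧ h ≠ 0
  · have h2 : {q : logSpace K × ℝ | h ∈ L ∧ h ≠ 0 ∧
        ∀ v, ‖sy (yM K M q.2 q.1) h v‖ ≤ R v} =
        ⋂ v, {q | ‖sy (yM K M q.2 q.1) h v‖ ≤ R v} := by
      ext q
      simp [h1.1, h1.2]
    rw [h2]
    refine MeasurableSet.iInter fun v => measurableSet_le ?_ measurable_const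
    have h3 : Continuous (fun q : logSpace K × ℝ => yM K M q.2 q.1) := by
      unfold yM
      have h4 : Continuous (fun q : logSpace K × ℝ =>
          (q.1, q.2 - Real.log (FractionalIdeal.absNorm M : ℝ))) := by fun_prop
      exact Continuous.comp (Pool.Agent.H35.GLB.yc_cont (K := K)) h4
    have h4 : Continuous (fun q : logSpace K × ℝ => ‖sy (yM K M q.2 q.1) h v‖) := by
      unfold sy
      refine Continuous.norm (continuous_const.mul (Complex.continuous_ofReal.comp ?_))
      exact Real.continuous_exp.comp (((continuous_apply v).comp h3).div_const 2)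
    exact h4.measurable
  · have h2 : {q : logSpace K × ℝ | h ∈ L ∧ h ≠ 0 ∧
        ∀ v, ‖sy (yM K M q.2 q.1) h v‖ ≤ R v} = ∅ := by
      ext q
      simp only [mem_ofPred_eq, mem_empty_iff_false, iff_false]
      exact fun h3 => h1 ⟨h3.1, h3.2.1⟩
    rw [h2]
    exact MeasurableSet.empty

private theorem norm_prod (a : K) : ∏ v : InfinitePlace K, v a ^ v.mult =
    |((Algebra.norm ℚ a : ℚ) : ℝ)| := by
  rw [InfinitePlace.prod_eq_abs_norm]
  push_cast
  rfl

/-- the bound for integral ideals, at one height -/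
private theorem one_le_disc (K : Type) [Field K] [NumberField K] : 1 ≤ |(discr K : ℝ)| := by
  have h1 : (1 : ℤ) ≤ |discr K| := Int.one_le_abs (discr_ne_zero K)
  have h2 : ((1 : ℤ) : ℝ) ≤ ((|discr K| : ℤ) : ℝ) := by exact_mod_cast h1
  rw [Int.cast_abs] at h2
  simpa using h2

private theorem cw_le {n : ℕ} (hn : Module.finrank ℚ K = n) :
    0 ≤ cw K ∧ cw K ≤ ((2 * n) ^ (n + 2) : ℕ) := by
  unfold cw
  refine ⟨by positivity, ?_⟩
  have h1 : ((2 : ℝ) ^ (nrRealPlaces K + nrComplexPlaces K))⁻¹ ≤ 1 :=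
    inv_le_one_of_one_le₀ (one_le_pow₀ (by norm_num))
  have h2 : (torsionOrder K : ℝ) ≤ ((2 * n) ^ (n + 2) : ℕ) := by
    exact_mod_cast Pool.Agent.H26.MV.torsion_bound n K hn
  calc (torsionOrder K : ℝ) * ((2 : ℝ) ^ (nrRealPlaces K + nrComplexPlaces K))⁻¹ ≤
      (torsionOrder K : ℝ) * 1 := mul_le_mul_of_nonneg_left h1 (Nat.cast_nonneg _)
    _ ≤ _ := by rw [mul_one]; exact h2

private theorem VV_eq (J : Ideal (𝓞 K)) (R : InfinitePlace K → ℝ) (hR : ∀ v, 0 < R v) (τ : ℝ) :
    VV K J (fun v => -(2 * Real.log (R v))) τ =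
      (∏ v, R v ^ v.mult) * Real.exp (-τ) / (Real.sqrt |(discr K : ℝ)| * Nf K J) := by
  unfold VV
  congr 1
  have h1 : -τ - (∑ v : InfinitePlace K, (v.mult : ℝ) * -(2 * Real.log (R v))) / 2 =
      (∑ v : InfinitePlace K, (v.mult : ℝ) * Real.log (R v)) + -τ := by
    have h2 : ∑ v : InfinitePlace K, (v.mult : ℝ) * -(2 * Real.log (R v)) =
        -2 * ∑ v : InfinitePlace K, (v.mult : ℝ) * Real.log (R v) := by
      rw [Finset.mul_sum]
      exact Finset.sum_congr rfl fun v _ => by ring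
    rw [h2]
    ring
  rw [h1, Real.exp_add, Real.exp_sum]
  congr 1
  refine Finset.prod_congr rfl fun v _ => ?_
  rw [← Real.log_pow, Real.exp_log (pow_pos (hR v) _)]

private theorem val_le {κ C W T X D N Y : ℝ} (hC : 0 ≤ C) (hWT : W ≤ T)
    (hD : 1 ≤ D) (hN : 0 < N) (hY : 0 ≤ Y) (hX : X = Y / (Real.sqrt D * N)) :
    C * (W * D ^ ((1 + κ) / 2)) * X ^ (1 + κ) ≤ C * T * (Y / N) ^ (1 + κ) := by
  have hD0 : 0 < D := by linarith
  have h1 : D ^ ((1 + κ) / 2) * X ^ (1 + κ) = (Y / N) ^ (1 + κ) := by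
    have h2 : D ^ ((1 + κ) / 2) = (Real.sqrt D) ^ (1 + κ) := by
      rw [Real.sqrt_eq_rpow, ← Real.rpow_mul hD0.le]
      congr 1
      ring
    rw [h2, ← Real.mul_rpow (Real.sqrt_nonneg _) (by rw [hX]; positivity), hX]
    congr 1
    have h3 : Real.sqrt D ≠ 0 := (Real.sqrt_pos.2 hD0).ne'
    field_simp
  calc C * (W * D ^ ((1 + κ) / 2)) * X ^ (1 + κ) =
      C * W * (D ^ ((1 + κ) / 2) * X ^ (1 + κ)) := by ring
    _ = C * W * (Y / N) ^ (1 + κ) := by rw [h1]
    _ ≤ C * T * (Y / N) ^ (1 + κ) := by gcongr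

end Pool.Agent.H95.BH.C1

namespace Pool.Agent.H95.BH

open Pool.Agent.H25.HK Pool.Agent.H23.LB Pool.Agent.H23.LC Pool.Agent.H29.DW
open Pool.Agent.H23.BG (Bx cb)
open Pool.Agent.H29.BH

open C1 in
open scoped Classical in
/-- (C1) the first moments over the positions. -/
theorem pf_R_C1 (hCT : V_CT) (hCB : Pool.Agent.H23.BG.P_CB) (hRR : T_RR) : R_C1 := by
  intro n hn κ hκ hκ1
  obtain ⟨C1, hC1, h1⟩ := hCT n hn κ hκ hκ1
  obtain ⟨C2, hC2, h2⟩ := hCB n hn
  obtain ⟨T, hT⟩ : ∃ T : ℝ, T = ((2 * n) ^ (n + 2) : ℕ) := ⟨_, rfl⟩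
  have hT0 : 0 ≤ T := by rw [hT]; positivity
  refine ⟨max 3 (3 * (C2 * (C1 * T))), le_max_of_le_left (by norm_num),
    fun K _ _ hK ι _ M hM τ₁ => ⟨?_, ?_⟩⟩
  · unfold pint
    have hreg : 0 ≤ regulator K := (regulator_pos K).le
    have h3 : ∀ c : ι, ∫⁻ _z in Fd K, ∫⁻ _τ in Icc τ₁ (τ₁ + 3), (1 : ℝ≥0∞) =
        ENNReal.ofReal (3 * regulator K) := by
      intro c
      rw [setLIntegral_const, setLIntegral_const, Real.volume_Icc, vol_Fd', one_mul,
        ← ENNReal.ofReal_mul (by linarith)]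
      congr 2
      ring
    rw [Finset.sum_congr rfl fun c _ => h3 c, Finset.sum_const, Finset.card_univ, nsmul_eq_mul,
      (hRR K ι M hM).2.2, ← ENNReal.ofReal_natCast, ← ENNReal.ofReal_mul (Nat.cast_nonneg _)]
    refine ENNReal.ofReal_le_ofReal ?_
    calc (classNumber K : ℝ) * (3 * regulator K) = 3 * (classNumber K * regulator K) := by ring
      _ ≤ _ := mul_le_mul_of_nonneg_right (le_max_left _ _) (by positivity)
  · intro j R hj hR
    obtain ⟨a, J, ha, hJ⟩ := FractionalIdeal.exists_eq_spanSingleton_mul j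
    have haK : (algebraMap (𝓞 K) K a) ≠ 0 := by
      intro h3
      exact ha ((FaithfulSMul.algebraMap_injective (𝓞 K) K) (by rw [h3, map_zero]))
    obtain ⟨α, hα⟩ : ∃ α : K, α = algebraMap (𝓞 K) K a := ⟨_, rfl⟩
    rw [← hα] at hJ haK
    have hJ0 : J ≠ ⊥ := by
      rintro rfl
      apply hj
      rw [hJ]
      simp
    have hva : ∀ v : InfinitePlace K, 0 < v α := fun v => (InfinitePlace.pos_iff).2 haK
    have hR' : ∀ v : InfinitePlace K, 0 < v α * R v := fun v => mul_pos (hva v) (hR v)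
    have hNJ : 0 < Nf K J := by
      unfold Nf
      have : 0 < Ideal.absNorm J := Nat.pos_of_ne_zero (by rwa [Ne, Ideal.absNorm_eq_zero_iff])
      exact_mod_cast this
    -- the quotient
    have hq : ∀ τ : ℝ, (∏ v : InfinitePlace K, (v α * R v) ^ v.mult) * Real.exp (-τ) / Nf K J =
        (∏ v : InfinitePlace K, R v ^ v.mult) * Real.exp (-τ) /
          (FractionalIdeal.absNorm j : ℝ) := by
      intro τ
      have h3 : ∏ v : InfinitePlace K, (v α * R v) ^ v.mult =
          |((Algebra.norm ℚ α : ℚ) : ℝ)| * ∏ v : InfinitePlace K, R v ^ v.mult := by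
        rw [← norm_prod α, ← Finset.prod_mul_distrib]
        exact Finset.prod_congr rfl fun v _ => mul_pow _ _ _
      have h4 : (FractionalIdeal.absNorm j : ℝ) =
          |((Algebra.norm ℚ α : ℚ) : ℝ)|⁻¹ * Nf K J := by
        have h6 : Algebra.norm ℚ α⁻¹ = (Algebra.norm ℚ α)⁻¹ := by
          have h7 : Algebra.norm ℚ α⁻¹ * Algebra.norm ℚ α = 1 := by
            rw [← map_mul, inv_mul_cancel₀ haK, map_one]
          exact eq_inv_of_mul_eq_one_left h7
        rw [hJ, map_mul, FractionalIdeal.coeIdeal_absNorm,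
          FractionalIdeal.absNorm_span_singleton, h6, abs_inv]
        push_cast
        rfl
      have h5 : |((Algebra.norm ℚ α : ℚ) : ℝ)| ≠ 0 := by
        rw [abs_ne_zero, Rat.cast_ne_zero, Algebra.norm_ne_zero_iff]
        exact haK
      rw [h3, h4]
      field_simp
    -- one height
    have hone : ∀ τ ∈ Icc τ₁ (τ₁ + 3), ∑ c, ∫⁻ z in Fd K, cn (j * M c) (yM K (M c) τ z) R ≤
        ENNReal.ofReal (C2 * (C1 * T * ((∏ v, R v ^ v.mult) * Real.exp (-τ₁) /
          (FractionalIdeal.absNorm j : ℝ)) ^ (1 + κ))) := by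
      intro τ hτ
      have h3 : ∀ c : ι, ∫⁻ z in Fd K, cn (j * M c) (yM K (M c) τ z) R ≤
          ENNReal.ofReal C2 * ∫⁻ z in Fd K, ENNReal.ofReal
            (th K ((J : FI K) * M c) (fun v => yM K (M c) τ z v +
              (fun v => -(2 * Real.log (v α * R v))) v) - 1) := by
        intro c
        rw [← lintegral_const_mul' _ _ ENNReal.ofReal_ne_top]
        refine lintegral_mono fun z => ?_
        rw [hJ, mul_assoc, cn_smul _ _ _ α haK]
        refine cn_le hC2 (fun M' y hM' => ?_) _ (mul_ne_zero ?_ (hM.1 c)) _ _ hR'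
        · obtain ⟨b1, b2, b3, -⟩ := h2 K hK M' y hM'
          exact ⟨b1, b2, b3⟩
        · rwa [Ne, FractionalIdeal.coeIdeal_eq_zero]
      refine (Finset.sum_le_sum fun c _ => h3 c).trans ?_
      rw [← Finset.mul_sum]
      refine (mul_le_mul_right ((h1 K hK ι M hM J J (fun v => -(2 * Real.log (v α * R v)))
        (fun v => -(2 * Real.log (v α * R v))) τ hJ0 hJ0).2) _).trans ?_
      rw [← ENNReal.ofReal_mul (by linarith)]
      refine ENNReal.ofReal_le_ofReal (mul_le_mul_of_nonneg_left ?_ (by linarith))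
      obtain ⟨-, hw1⟩ := cw_le (K := K) hK
      rw [← hT] at hw1
      have hprod : 0 ≤ ∏ v : InfinitePlace K, (v α * R v) ^ v.mult :=
        Finset.prod_nonneg fun v _ => pow_nonneg (hR' v).le _
      refine (val_le hC1 hw1 (one_le_disc K) hNJ
        (mul_nonneg hprod (Real.exp_pos (-τ)).le) (VV_eq J _ hR' τ)).trans ?_
      refine mul_le_mul_of_nonneg_left ?_ (by positivity)
      refine Real.rpow_le_rpow (by positivity) ?_ (by linarith)
      rw [← hq τ₁]
      have h4 : Real.exp (-τ) ≤ Real.exp (-τ₁) := Real.exp_le_exp.2 (by linarith [hτ.1])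
      gcongr
    have hsw : pint M (Icc τ₁ (τ₁ + 3)) (fun L y => cn (j * L) y R) =
        ∫⁻ τ in Icc τ₁ (τ₁ + 3), ∑ c, ∫⁻ z in Fd K, cn (j * M c) (yM K (M c) τ z) R := by
      unfold pint
      have hm := fun c => cn_meas (j * M c) (M c) R
      rw [lintegral_finsetSum]
      · refine Finset.sum_congr rfl fun c _ => ?_
        exact lintegral_lintegral_swap (f := fun z τ => cn (j * M c) (yM K (M c) τ z) R)
          (hm c).aemeasurable
      · intro c _
        exact (((hm c).comp measurable_swap).lintegral_prod_right' (ν := volume.restrict (Fd K)))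
    rw [hsw]
    refine (setLIntegral_mono measurable_const hone).trans ?_
    have h5 : 0 ≤ ((∏ v, R v ^ v.mult) * Real.exp (-τ₁) /
          (FractionalIdeal.absNorm j : ℝ)) ^ (1 + κ) := by
      refine Real.rpow_nonneg ?_ _
      rw [← hq τ₁]
      have hprod : 0 ≤ ∏ v : InfinitePlace K, (v α * R v) ^ v.mult :=
        Finset.prod_nonneg fun v _ => pow_nonneg (hR' v).le _
      exact div_nonneg (mul_nonneg hprod (Real.exp_pos _).le) hNJ.le
    rw [setLIntegral_const, Real.volume_Icc, ← ENNReal.ofReal_mul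
      (mul_nonneg (by linarith) (mul_nonneg (mul_nonneg hC1 hT0) h5))]
    refine ENNReal.ofReal_le_ofReal ?_
    calc C2 * (C1 * T * ((∏ v, R v ^ v.mult) * Real.exp (-τ₁) /
          (FractionalIdeal.absNorm j : ℝ)) ^ (1 + κ)) * (τ₁ + 3 - τ₁) =
        3 * (C2 * (C1 * T)) * ((∏ v, R v ^ v.mult) * Real.exp (-τ₁) /
          (FractionalIdeal.absNorm j : ℝ)) ^ (1 + κ) := by ring
      _ ≤ _ := mul_le_mul_of_nonneg_right (le_max_right _ _) h5

end Pool.Agent.H95.BH
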